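import Pool.Agent.H450Z.GLFree
import Pool.Agent.Results.MP_e848aa_gt.TfaeFreeSubset
import Pool.Agent.Results.MP_e848aa_gt.PerfectImages

set_option autoImplicit false

namespace Pool.Agent.Results.MP_e848aa_gt.AIndependent

open Pool.Agent.H450Z.GL Cardinal

/-- Every open cover has a point-countable open refinement. -/
def Metalindelof (X : Type) [TopologicalSpace X] : Prop :=
  ∀ 𝒰 : Set (Set X), (∀ U ∈ 𝒰, IsOpen U) → (∀ x : X, ∃ U ∈ 𝒰, x ∈ U) →
    ∃ 𝒱 : Set (Set X), (∀ V ∈ 𝒱, IsOpen V) ∧ (∀ x : X, ∃ V ∈ 𝒱, x ∈ V) ∧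
      (∀ V ∈ 𝒱, ∃ U ∈ 𝒰, V ⊆ U) ∧ ∀ x : X, {V | V ∈ 𝒱 ∧ x ∈ V}.Countable

/-- Perfect mappings: continuous closed surjections with compact fibres. -/
def IsPerfect {X Y : Type} [TopologicalSpace X] [TopologicalSpace Y] (f : X → Y) : Prop :=
  Continuous f ∧ IsClosedMap f ∧ Function.Surjective f ∧ ∀ y, IsCompact (f ⁻¹' {y})

theorem ml_iff (X : Type) [TopologicalSpace X] :
    Metalindelof X ↔ TfaeFreeSubset.Metalindelof X :=
  ⟨fun h 𝒰 h𝒰 => let ⟨𝒱, h1, h2, h3, h4⟩ := h 𝒰 h𝒰.1 h𝒰.2; ⟨𝒱, ⟨h1, h2⟩, h3, h4⟩,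
    fun h 𝒰 h1 h2 => let ⟨𝒱, h3, h4, h5⟩ := h 𝒰 ⟨h1, h2⟩; ⟨𝒱, h3.1, h3.2, h4, h5⟩⟩

/-- Preservation of the metalindelof property by perfect mappings is independent: it holds if every
set is constructible and there is no weakly inaccessible cardinal, and it fails (for Hausdorff
spaces) if some set carries a countably complete nonprincipal ultrafilter. -/
theorem result :
    (VeqL → (∀ c : Cardinal.{0}, ℵ₀ < c → c.IsRegular → ∃ d, c = Order.succ d) →
      ∀ (X Y : Type) [TopologicalSpace X] [TopologicalSpace Y] (f : X → Y),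
        IsPerfect f → Metalindelof X → Metalindelof Y) ∧
    ((∃ (κ : Type) (𝒟 : Ultrafilter κ), CountableInterFilter (𝒟 : Filter κ) ∧ ∀ a : κ, {a} ∉ 𝒟) →
      ∃ (X Y : Type) (_ : TopologicalSpace X) (_ : TopologicalSpace Y) (f : X → Y),
        T2Space X ∧ T2Space Y ∧ IsPerfect f ∧ Metalindelof X ∧ ¬ Metalindelof Y) := by
  constructor
  · intro hL hI X Y _ _ f hf hX
    refine (ml_iff Y).2 (TfaeFreeSubset.global_positive ?_ X Y f ((ml_iff X).1 hX) hf.1 hf.2.1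
      hf.2.2.1 fun y => (hf.2.2.2 y).isLindelof)
    rintro ⟨κ, hκ⟩
    obtain ⟨F, h1, h2⟩ := no_free hL hI κ
    obtain ⟨a, h3, h4⟩ := hκ F h1
    obtain ⟨k, G, h5, h6⟩ := h2 a h3
    exact h4 k G h5 h6
  · rintro ⟨κ, 𝒟, _, h𝒟⟩
    have hκ : TfaeFreeSubset.FreeSubset κ := by
      intro F hF
      obtain ⟨A, hA, h⟩ := PerfectImages.freeSubsets_of_ultrafilter 𝒟 h𝒟 F hF
      refine ⟨fun n => (hA.natEmbedding A n).1,
        Subtype.val_injective.comp (hA.natEmbedding A).injective, fun k G hG => ?_⟩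
      refine h G (fun x hx => ?_) _ (hA.natEmbedding A k).2 fun hk => ?_
      · obtain ⟨j, _, rfl⟩ := hG hx
        exact (hA.natEmbedding A j).2
      · obtain ⟨j, h1, h2⟩ := hG hk
        exact h1 ((hA.natEmbedding A).injective (Subtype.ext h2))
    exact ⟨TfaeFreeSubset.XT κ, TfaeFreeSubset.YT κ, inferInstance, inferInstance,
      TfaeFreeSubset.pr, TfaeFreeSubset.X_t2, TfaeFreeSubset.Y_t2, TfaeFreeSubset.pr_perfect,
      (ml_iff _).2 TfaeFreeSubset.X_metalindelof,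
      fun h => TfaeFreeSubset.Y_not_metalindelof hκ ((ml_iff _).1 h)⟩

end Pool.Agent.Results.MP_e848aa_gt.AIndependent
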